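import Pool.Agent.W78.GM.Defs2
import Pool.Agent.H358R2.SquarePart
import Pool.Agent.H359R2.Tau

/-!
Project GM (helper78), part 2, GP-2: few pairs of determinant one for which `n^2+1` is divisible by
the square of a large prime.
-/

set_option autoImplicit false

namespace Pool.Agent.W801.GM

open Finset Filter
open Pool.Agent.W78.GM
open Pool.Agent.H358R2 (DQ mem_DQ card_DQ DM mem_DM card_DM sum_inv_sq)
open H359R2 (tau tsm tsm_le exists_small_divisor)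

/-- integers `n ≤ N` with `n^2+1` divisible by the square of a prime `> J` -/
noncomputable def PX (J N : ℕ) : Finset ℕ :=
  letI := Classical.decPred fun n : ℕ => ∃ l, l.Prime ∧ J < l ∧ l ^ 2 ∣ n ^ 2 + 1
  (Icc 1 N).filter fun n => ∃ l, l.Prime ∧ J < l ∧ l ^ 2 ∣ n ^ 2 + 1

theorem mem_PX {J N n : ℕ} :
    n ∈ PX J N ↔ (1 ≤ n ∧ n ≤ N) ∧ ∃ l, l.Prime ∧ J < l ∧ l ^ 2 ∣ n ^ 2 + 1 := by
  classical
  unfold PX
  rw [mem_filter, mem_Icc]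

theorem card_PX (J N Y : ℕ) (hJ : 1 ≤ J) :
    ((PX J N).card : ℝ) ≤ 3 * (2 * N / J + Y) +
      ((N ^ 2 + 1) / (Y + 1) ^ 2 + 1 : ℕ) * (Nat.log 2 N + 1) := by
  classical
  have hsub : PX J N ⊆ (((Ioc J Y).filter Nat.Prime).biUnion fun j => DQ (j ^ 2) N) ∪
      ((range ((N ^ 2 + 1) / (Y + 1) ^ 2 + 1)).biUnion fun m => DM m N) := by
    intro n hn
    rw [mem_PX] at hn
    obtain ⟨⟨h1, h2⟩, j, hjp, hj1, hj2⟩ := hn
    rw [mem_union]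
    by_cases hjY : j ≤ Y
    · left
      rw [mem_biUnion]
      exact ⟨j, mem_filter.2 ⟨mem_Ioc.2 ⟨hj1, hjY⟩, hjp⟩, mem_DQ.2 ⟨h2, hj2⟩⟩
    · right
      push Not at hjY
      obtain ⟨m, hm⟩ := hj2
      rw [mem_biUnion]
      refine ⟨m, ?_, mem_DM.2 ⟨⟨h1, h2⟩, j, by rw [hm]; ring⟩⟩
      rw [mem_range]
      apply Nat.lt_succ_of_le
      rw [Nat.le_div_iff_mul_le (by positivity)]
      calc m * (Y + 1) ^ 2 ≤ m * j ^ 2 := Nat.mul_le_mul_left _ (Nat.pow_le_pow_left hjY 2)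
        _ = n ^ 2 + 1 := by rw [hm]; ring
        _ ≤ N ^ 2 + 1 := by
            have := Nat.pow_le_pow_left h2 2
            omega
  have hDQ : ∀ j ∈ (Ioc J Y).filter Nat.Prime,
      ((DQ (j ^ 2) N).card : ℝ) ≤ 3 * (2 * N * (1 / (j : ℝ) ^ 2) + 1) := by
    intro j hj
    rw [mem_filter, mem_Ioc] at hj
    obtain ⟨hj, hjp⟩ := hj
    have hj0 : 0 < j := by omega
    have hj0' : (0 : ℝ) < j := by exact_mod_cast hj0
    have hτ : (j ^ 2).divisors.card = 3 := by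
      rw [Nat.divisors_prime_pow hjp, card_map, card_range]
    have h1 := card_DQ (j ^ 2) N (by positivity)
    rw [hτ] at h1
    have h3 : ((DQ (j ^ 2) N).card : ℝ) ≤ 3 * (((2 * N / j ^ 2 : ℕ) : ℝ) + 1) := by
      exact_mod_cast h1
    refine h3.trans ?_
    apply mul_le_mul_of_nonneg_left _ (by norm_num)
    have h4 : ((2 * N / j ^ 2 : ℕ) : ℝ) ≤ ((2 * N : ℕ) : ℝ) / ((j ^ 2 : ℕ) : ℝ) := Nat.cast_div_le
    push_cast at h4
    have e : (2 : ℝ) * N * (1 / (j : ℝ) ^ 2) = 2 * N / (j : ℝ) ^ 2 := by ring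
    rw [e]
    linarith
  have hc1 : (((((Ioc J Y).filter Nat.Prime).biUnion fun j => DQ (j ^ 2) N).card : ℕ) : ℝ) ≤
      3 * (2 * N / J + Y) := by
    calc (((((Ioc J Y).filter Nat.Prime).biUnion fun j => DQ (j ^ 2) N).card : ℕ) : ℝ)
        ≤ ((∑ j ∈ (Ioc J Y).filter Nat.Prime, (DQ (j ^ 2) N).card : ℕ) : ℝ) := by
          exact_mod_cast card_biUnion_le
      _ = ∑ j ∈ (Ioc J Y).filter Nat.Prime, ((DQ (j ^ 2) N).card : ℝ) := by push_cast; rfl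
      _ ≤ ∑ j ∈ (Ioc J Y).filter Nat.Prime, 3 * (2 * N * (1 / (j : ℝ) ^ 2) + 1) :=
          sum_le_sum hDQ
      _ ≤ ∑ j ∈ Ioc J Y, 3 * (2 * N * (1 / (j : ℝ) ^ 2) + 1) :=
          sum_le_sum_of_subset_of_nonneg (filter_subset _ _) fun _ _ _ => by positivity
      _ = 3 * (2 * N * (∑ j ∈ Ioc J Y, 1 / (j : ℝ) ^ 2) + (Ioc J Y).card) := by
          rw [← mul_sum, sum_add_distrib, ← mul_sum]
          simp
      _ ≤ 3 * (2 * N / J + Y) := by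
          apply mul_le_mul_of_nonneg_left _ (by norm_num)
          have h1 := sum_inv_sq J Y hJ
          have h2 : ((Ioc J Y).card : ℝ) ≤ Y := by
            rw [Nat.card_Ioc]
            exact_mod_cast Nat.sub_le _ _
          have h3 : (2 : ℝ) * N * (∑ j ∈ Ioc J Y, 1 / (j : ℝ) ^ 2) ≤ 2 * N * (1 / J) :=
            mul_le_mul_of_nonneg_left h1 (by positivity)
          have e : (2 : ℝ) * N * (1 / J) = 2 * N / J := by ring
          linarith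
  have hc2 : ((range ((N ^ 2 + 1) / (Y + 1) ^ 2 + 1)).biUnion fun m => DM m N).card ≤
      ((N ^ 2 + 1) / (Y + 1) ^ 2 + 1) * (Nat.log 2 N + 1) := by
    refine card_biUnion_le.trans ?_
    calc ∑ m ∈ range ((N ^ 2 + 1) / (Y + 1) ^ 2 + 1), (DM m N).card
        ≤ ∑ m ∈ range ((N ^ 2 + 1) / (Y + 1) ^ 2 + 1), (Nat.log 2 N + 1) :=
          sum_le_sum fun m _ => card_DM m N
      _ = _ := by rw [sum_const, smul_eq_mul, card_range]
  have hc2' : ((((range ((N ^ 2 + 1) / (Y + 1) ^ 2 + 1)).biUnion fun m => DM m N).card : ℕ) : ℝ) ≤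
      ((N ^ 2 + 1) / (Y + 1) ^ 2 + 1 : ℕ) * (Nat.log 2 N + 1) := by exact_mod_cast hc2
  calc ((PX J N).card : ℝ) ≤ ((((((Ioc J Y).filter Nat.Prime).biUnion fun j => DQ (j ^ 2) N) ∪
      ((range ((N ^ 2 + 1) / (Y + 1) ^ 2 + 1)).biUnion fun m => DM m N)).card : ℕ) : ℝ) := by
        exact_mod_cast card_le_card hsub
    _ ≤ (((((Ioc J Y).filter Nat.Prime).biUnion fun j => DQ (j ^ 2) N).card +
      ((range ((N ^ 2 + 1) / (Y + 1) ^ 2 + 1)).biUnion fun m => DM m N).card : ℕ) : ℝ) := by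
        exact_mod_cast card_union_le _ _
    _ ≤ _ := by push_cast at hc1 hc2' ⊢; linarith

/-- second moment of the divisor function of `n^2+1` -/
theorem tau_sq_moment (N : ℕ) :
    ∑ n ∈ Icc 1 N, (((n ^ 2 + 1).divisors.card : ℕ) : ℝ) ^ 2 ≤
      12 * N * (1 + Real.log N) ^ 32 := by
  classical
  -- choice of the small divisor
  have hex : ∀ n : ℕ, ∃ m, m ∣ n ^ 2 + 1 ∧ m * m ≤ n ^ 2 + 1 ∧
      tau (n ^ 2 + 1) ≤ 2 * tau m ^ 2 := fun n => exists_small_divisor _ (Nat.succ_ne_zero _)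
  choose m hm1 hm2 hm3 using hex
  have hm : ∀ n ∈ Icc 1 N, m n ∈ Icc 1 N := by
    intro n hn
    rw [mem_Icc] at hn ⊢
    refine ⟨Nat.pos_of_dvd_of_pos (hm1 n) (Nat.succ_pos _), ?_⟩
    by_contra hlt
    push Not at hlt
    have h1 := hm2 n
    have h2 : n + 1 ≤ m n := by omega
    have h3 := Nat.mul_le_mul h2 h2
    nlinarith
  have h1 : ∀ n ∈ Icc 1 N, (((n ^ 2 + 1).divisors.card : ℕ) : ℝ) ^ 2 ≤
      ∑ q ∈ Icc 1 N, if q ∣ n ^ 2 + 1 then 4 * (tau q : ℝ) ^ 4 else 0 := by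
    intro n hn
    have h2 : (((n ^ 2 + 1).divisors.card : ℕ) : ℝ) ^ 2 ≤ 4 * (tau (m n) : ℝ) ^ 4 := by
      have h3 : (((n ^ 2 + 1).divisors.card : ℕ) : ℝ) ≤ 2 * (tau (m n) : ℝ) ^ 2 := by
        exact_mod_cast hm3 n
      calc (((n ^ 2 + 1).divisors.card : ℕ) : ℝ) ^ 2 ≤ (2 * (tau (m n) : ℝ) ^ 2) ^ 2 :=
            pow_le_pow_left₀ (Nat.cast_nonneg _) h3 2
        _ = 4 * (tau (m n) : ℝ) ^ 4 := by ring
    refine h2.trans ?_
    have h5 : ∀ q ∈ Icc 1 N, (0 : ℝ) ≤ if q ∣ n ^ 2 + 1 then 4 * (tau q : ℝ) ^ 4 else 0 := by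
      intro q _
      split_ifs <;> positivity
    have h4 := single_le_sum h5 (hm n hn)
    rwa [if_pos (hm1 n)] at h4
  have s1 := sum_le_sum h1
  rw [sum_comm] at s1
  refine s1.trans ?_
  have s2 : ∀ q ∈ Icc 1 N, (∑ n ∈ Icc 1 N, if q ∣ n ^ 2 + 1 then 4 * (tau q : ℝ) ^ 4 else 0) ≤
      12 * N * ((tau q : ℝ) ^ 5 / q) := by
    intro q hq
    rw [mem_Icc] at hq
    rw [← sum_filter, sum_const, nsmul_eq_mul]
    have h2 : (((Icc 1 N).filter fun n => q ∣ n ^ 2 + 1).card : ℝ) ≤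
        (tau q : ℝ) * (3 * N / q) := by
      have h3 : ((Icc 1 N).filter fun n => q ∣ n ^ 2 + 1).card ≤ (DQ q N).card := by
        refine card_le_card fun n hn => ?_
        rw [mem_filter, mem_Icc] at hn
        exact mem_DQ.2 ⟨hn.1.2, hn.2⟩
      have h4 := h3.trans (card_DQ q N (by omega))
      have h5 : (((Icc 1 N).filter fun n => q ∣ n ^ 2 + 1).card : ℝ) ≤
          (tau q : ℝ) * (((2 * N / q : ℕ) : ℝ) + 1) := by
        unfold tau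
        exact_mod_cast h4
      refine h5.trans (mul_le_mul_of_nonneg_left ?_ (Nat.cast_nonneg _))
      have h6 : ((2 * N / q : ℕ) : ℝ) ≤ ((2 * N : ℕ) : ℝ) / (q : ℝ) := Nat.cast_div_le
      have hq0 : (0 : ℝ) < q := by exact_mod_cast hq.1
      have h7 : (1 : ℝ) ≤ N / q := by
        rw [le_div_iff₀ hq0, one_mul]
        exact_mod_cast hq.2
      push_cast at h6
      have e : (3 : ℝ) * N / q = 2 * N / q + N / q := by ring
      rw [e]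
      linarith
    have h8 : (((Icc 1 N).filter fun n => q ∣ n ^ 2 + 1).card : ℝ) * (4 * (tau q : ℝ) ^ 4)
        ≤ ((tau q : ℝ) * (3 * N / q)) * (4 * (tau q : ℝ) ^ 4) :=
      mul_le_mul_of_nonneg_right h2 (by positivity)
    have h9 : ((tau q : ℝ) * (3 * N / q)) * (4 * (tau q : ℝ) ^ 4) =
        12 * N * ((tau q : ℝ) ^ 5 / q) := by ring
    exact h8.trans h9.le
  refine (sum_le_sum s2).trans ?_
  rw [← mul_sum]
  have h := tsm_le 5 N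
  have h32 : (2 : ℕ) ^ 5 = 32 := by norm_num
  rw [h32] at h
  exact mul_le_mul_of_nonneg_left h (by positivity)

/-- few pairs with the same `|ip|` -/
theorem fibre_card (hM : S_MULT) (k : ℕ) (T : Finset (GaussianInt × GaussianInt))
    (hT : ∀ e ∈ T, dt e.1 e.2 = 1 ∧ (ip e.1 e.2).natAbs = k) :
    T.card ≤ 8 * (k ^ 2 + 1).divisors.card := by
  classical
  have h1 := hM (k : ℤ) (T.filter fun e => ip e.1 e.2 = k) (fun e he => by
    rw [mem_filter] at he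
    exact ⟨(hT e he.1).1, he.2⟩)
  have h2 := hM (-(k : ℤ)) (T.filter fun e => ¬ ip e.1 e.2 = k) (fun e he => by
    rw [mem_filter] at he
    refine ⟨(hT e he.1).1, ?_⟩
    have := (hT e he.1).2
    have h3 := he.2
    omega)
  have e1 : ((k : ℤ) ^ 2 + 1).natAbs = k ^ 2 + 1 := by
    have : ((k : ℤ) ^ 2 + 1) = ((k ^ 2 + 1 : ℕ) : ℤ) := by push_cast; ring
    rw [this, Int.natAbs_natCast]
  have e2 : ((-(k : ℤ)) ^ 2 + 1).natAbs = k ^ 2 + 1 := by rw [neg_sq, e1]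
  rw [e1] at h1
  rw [e2] at h2
  have h3 := card_filter_add_card_filter_not (s := T) (fun e => ip e.1 e.2 = k)
  omega

theorem NN_eq {e : GaussianInt × GaussianInt} (h : dt e.1 e.2 = 1) :
    NN e = (ip e.1 e.2).natAbs ^ 2 + 1 := by
  have h1 := ip_dt e.1 e.2
  rw [h] at h1
  have h2 : ((NN e : ℕ) : ℤ) = (((ip e.1 e.2).natAbs ^ 2 + 1 : ℕ) : ℤ) := by
    unfold NN
    push_cast
    rw [h1, sq_abs]
    ring
  exact_mod_cast h2

open scoped Classical in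
/-- the combinatorial bound -/
theorem large_card (hM : S_MULT) (X : ℝ) (hX : 1 ≤ X) (L : ℝ) (hL : 1 ≤ L) :
    (((dedge X).filter (fun e => ∃ l : ℕ, l.Prime ∧ L < (l : ℝ) ∧ l ^ 2 ∣ NN e)).card : ℝ) ≤
      8 * ∑ k ∈ PX ⌊L⌋₊ ⌊X⌋₊, (((k ^ 2 + 1).divisors.card : ℕ) : ℝ) := by
  set T := (dedge X).filter (fun e => ∃ l : ℕ, l.Prime ∧ L < (l : ℝ) ∧ l ^ 2 ∣ NN e) with hT
  have hmap : ∀ e ∈ T, (ip e.1 e.2).natAbs ∈ PX ⌊L⌋₊ ⌊X⌋₊ := by
    intro e he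
    rw [hT, mem_filter] at he
    obtain ⟨he, l, hlp, hlL, hld⟩ := he
    unfold dedge at he
    rw [mem_filter, mem_product, mem_pball, mem_pball] at he
    obtain ⟨⟨⟨_, h1⟩, ⟨_, h2⟩⟩, h3⟩ := he
    have h4 := NN_eq h3
    rw [h4] at hld
    rw [mem_PX]
    refine ⟨⟨?_, ?_⟩, l, hlp, ?_, hld⟩
    · by_contra h0
      have h0' : (ip e.1 e.2).natAbs = 0 := by omega
      rw [h0'] at hld
      have h5 : l ^ 2 ∣ 1 := by simpa using hld
      have h6 := Nat.dvd_one.1 h5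
      have h7 := hlp.two_le
      nlinarith
    · apply Nat.le_floor
      have h5 : (NN e : ℝ) ≤ X ^ 2 := by
        unfold NN
        push_cast
        rw [pow_two]
        exact mul_le_mul h1 h2 (Nat.cast_nonneg _) (by linarith)
      rw [h4] at h5
      push_cast at h5
      have h6 : (((ip e.1 e.2).natAbs : ℕ) : ℝ) ^ 2 ≤ X ^ 2 := by
        have : (((ip e.1 e.2).natAbs : ℕ) : ℝ) ^ 2 = |((ip e.1 e.2 : ℤ) : ℝ)| ^ 2 := by
          rw [Nat.cast_natAbs, Int.cast_abs]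
        linarith
      exact (pow_le_pow_iff_left₀ (Nat.cast_nonneg _) (by linarith) two_ne_zero).1 h6
    · exact (Nat.floor_lt (by linarith)).2 hlL
  have h1 : T.card ≤ ∑ k ∈ PX ⌊L⌋₊ ⌊X⌋₊, 8 * (k ^ 2 + 1).divisors.card := by
    rw [card_eq_sum_card_fiberwise hmap]
    refine sum_le_sum fun k _ => ?_
    refine fibre_card hM k _ fun e he => ?_
    rw [mem_filter] at he
    refine ⟨?_, he.2⟩
    have h2 := he.1
    rw [hT, mem_filter] at h2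
    unfold dedge at h2
    rw [mem_filter] at h2
    exact h2.1.2
  calc (T.card : ℝ) ≤ ((∑ k ∈ PX ⌊L⌋₊ ⌊X⌋₊, 8 * (k ^ 2 + 1).divisors.card : ℕ) : ℝ) := by
        exact_mod_cast h1
    _ = _ := by push_cast; rw [mul_sum]

/-- Cauchy-Schwarz -/
theorem large_sq (J N : ℕ) :
    (∑ k ∈ PX J N, (((k ^ 2 + 1).divisors.card : ℕ) : ℝ)) ^ 2 ≤
      (PX J N).card * (12 * N * (1 + Real.log N) ^ 32) := by
  classical
  refine sq_sum_le_card_mul_sum_sq.trans ?_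
  refine mul_le_mul_of_nonneg_left ?_ (Nat.cast_nonneg _)
  refine le_trans ?_ (tau_sq_moment N)
  refine sum_le_sum_of_subset_of_nonneg (fun k hk => ?_) fun _ _ _ => by positivity
  rw [mem_PX] at hk
  exact mem_Icc.2 hk.1

theorem card_PX_ev : ∀ᶠ X : ℝ in atTop,
    ((PX ⌊Real.log X ^ 34⌋₊ ⌊X⌋₊).card : ℝ) ≤ 13 * (X / Real.log X ^ 34) := by
  have h1 : ∀ᶠ X : ℝ in atTop, (1 : ℝ) ≤ Real.log X :=
    Real.tendsto_log_atTop.eventually_ge_atTop 1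
  have h2 : ∀ᶠ X : ℝ in atTop, ‖Real.log X ^ (35 : ℝ)‖ ≤ (1 / 12) * ‖X ^ (1 / 4 : ℝ)‖ :=
    (isLittleO_log_rpow_rpow_atTop (s := 1 / 4) (35 : ℝ) (by norm_num)).def (by norm_num)
  filter_upwards [h1, h2, eventually_ge_atTop (16 : ℝ)] with X hl h35 hX
  have hX0 : (0 : ℝ) < X := by linarith
  have hX1 : (1 : ℝ) ≤ X := by linarith
  set ℓ := Real.log X with hℓ
  have hℓ0 : 0 < ℓ := by linarith
  have h35' : ℓ ^ 35 ≤ (1 / 12) * X ^ (1 / 4 : ℝ) := by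
    have e : ℓ ^ (35 : ℝ) = ℓ ^ 35 := by
      rw [show (35 : ℝ) = ((35 : ℕ) : ℝ) by norm_num, Real.rpow_natCast]
    rw [e, Real.norm_of_nonneg (by positivity), Real.norm_of_nonneg (by positivity)] at h35
    exact h35
  have hL1 : 1 ≤ ℓ ^ 34 := one_le_pow₀ hl
  have hJ1 : 1 ≤ ⌊ℓ ^ 34⌋₊ := Nat.le_floor (by exact_mod_cast hL1)
  have hJ2 : ℓ ^ 34 / 2 ≤ (⌊ℓ ^ 34⌋₊ : ℝ) := by
    have h3 := Nat.lt_floor_add_one (ℓ ^ 34)
    have h4 : (1 : ℝ) ≤ (⌊ℓ ^ 34⌋₊ : ℝ) := by exact_mod_cast hJ1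
    linarith
  set Y := ⌊X ^ (3 / 4 : ℝ)⌋₊ with hY
  have hcard := card_PX ⌊ℓ ^ 34⌋₊ ⌊X⌋₊ Y hJ1
  refine hcard.trans ?_
  have hN : (⌊X⌋₊ : ℝ) ≤ X := Nat.floor_le hX0.le
  have hYle : (Y : ℝ) ≤ X ^ (3 / 4 : ℝ) := Nat.floor_le (by positivity)
  have hYge : X ^ (3 / 4 : ℝ) < (Y : ℝ) + 1 := Nat.lt_floor_add_one _
  have t1 : 2 * (⌊X⌋₊ : ℝ) / (⌊ℓ ^ 34⌋₊ : ℝ) ≤ 4 * (X / ℓ ^ 34) := by
    have h5 : 2 * (⌊X⌋₊ : ℝ) / (⌊ℓ ^ 34⌋₊ : ℝ) ≤ 2 * X / (ℓ ^ 34 / 2) :=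
      div_le_div₀ (by positivity) (by linarith) (by positivity) hJ2
    have h6 : 2 * X / (ℓ ^ 34 / 2) = 4 * (X / ℓ ^ 34) := by field_simp; ring
    linarith
  -- the number of `m`
  have e32 : X ^ (3 / 4 : ℝ) * X ^ (3 / 4 : ℝ) = X * X ^ (1 / 2 : ℝ) := by
    rw [← Real.rpow_add hX0]
    nth_rewrite 2 [← Real.rpow_one X]
    rw [← Real.rpow_add hX0]
    norm_num
  have e12 : X ^ (1 / 2 : ℝ) * X ^ (1 / 2 : ℝ) = X := by
    rw [← Real.rpow_add hX0]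
    norm_num
  have e34 : X ^ (1 / 2 : ℝ) * X ^ (1 / 4 : ℝ) = X ^ (3 / 4 : ℝ) := by
    rw [← Real.rpow_add hX0]
    norm_num
  have e1 : X ^ (3 / 4 : ℝ) * X ^ (1 / 4 : ℝ) = X := by
    rw [← Real.rpow_add hX0]
    norm_num
  have p12 : 1 ≤ X ^ (1 / 2 : ℝ) := Real.one_le_rpow hX1 (by norm_num)
  have p14 : 1 ≤ X ^ (1 / 4 : ℝ) := Real.one_le_rpow hX1 (by norm_num)
  have p34 : 1 ≤ X ^ (3 / 4 : ℝ) := Real.one_le_rpow hX1 (by norm_num)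
  have t2 : ((((⌊X⌋₊ ^ 2 + 1) / (Y + 1) ^ 2 + 1 : ℕ)) : ℝ) ≤ 3 * X ^ (1 / 2 : ℝ) := by
    have h5 : (((⌊X⌋₊ ^ 2 + 1) / (Y + 1) ^ 2 : ℕ) : ℝ) ≤
        ((⌊X⌋₊ ^ 2 + 1 : ℕ) : ℝ) / (((Y + 1) ^ 2 : ℕ) : ℝ) := Nat.cast_div_le
    have h6 : ((⌊X⌋₊ ^ 2 + 1 : ℕ) : ℝ) / (((Y + 1) ^ 2 : ℕ) : ℝ) ≤ 2 * X ^ (1 / 2 : ℝ) := by
      push_cast
      rw [div_le_iff₀ (by positivity)]
      have h7 : X ^ (3 / 4 : ℝ) * X ^ (3 / 4 : ℝ) ≤ ((Y : ℝ) + 1) ^ 2 := by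
        rw [pow_two]
        exact mul_le_mul hYge.le hYge.le (by positivity) (by positivity)
      have h8 : (⌊X⌋₊ : ℝ) ^ 2 + 1 ≤ 2 * (X * X) := by
        have h9 : (⌊X⌋₊ : ℝ) ^ 2 ≤ X * X := by
          rw [pow_two]
          exact mul_le_mul hN hN (Nat.cast_nonneg _) hX0.le
        have h10 : (1 : ℝ) ≤ X * X := by nlinarith
        linarith
      calc (⌊X⌋₊ : ℝ) ^ 2 + 1 ≤ 2 * (X * X) := h8
        _ = 2 * X ^ (1 / 2 : ℝ) * (X ^ (3 / 4 : ℝ) * X ^ (3 / 4 : ℝ)) := by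
            rw [e32]
            calc 2 * (X * X) = 2 * (X * (X ^ (1 / 2 : ℝ) * X ^ (1 / 2 : ℝ))) := by rw [e12]
              _ = _ := by ring
        _ ≤ 2 * X ^ (1 / 2 : ℝ) * ((Y : ℝ) + 1) ^ 2 :=
            mul_le_mul_of_nonneg_left h7 (by positivity)
    push_cast at h5 h6 ⊢
    linarith
  have t3 : ((Nat.log 2 ⌊X⌋₊ : ℕ) : ℝ) + 1 ≤ 3 * ℓ := by
    have hN1 : 1 ≤ ⌊X⌋₊ := Nat.le_floor (by exact_mod_cast hX1)
    have h5 : (2 : ℝ) ^ (Nat.log 2 ⌊X⌋₊) ≤ X := by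
      have := Nat.pow_log_le_self 2 (x := ⌊X⌋₊) (by omega)
      have h6 : ((2 ^ (Nat.log 2 ⌊X⌋₊) : ℕ) : ℝ) ≤ (⌊X⌋₊ : ℝ) := by exact_mod_cast this
      push_cast at h6
      linarith
    have h6 := Real.log_le_log (by positivity) h5
    rw [Real.log_pow] at h6
    have h7 := Real.log_two_gt_d9
    have h8 : ((Nat.log 2 ⌊X⌋₊ : ℕ) : ℝ) * (1 / 2) ≤ ℓ := by
      refine le_trans ?_ h6
      exact mul_le_mul_of_nonneg_left (by linarith) (Nat.cast_nonneg _)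
    linarith
  have t4 : ((((⌊X⌋₊ ^ 2 + 1) / (Y + 1) ^ 2 + 1 : ℕ)) : ℝ) * (((Nat.log 2 ⌊X⌋₊ : ℕ) : ℝ) + 1) ≤
      (3 * X ^ (1 / 2 : ℝ)) * (3 * ℓ) :=
    mul_le_mul t2 t3 (by positivity) (by positivity)
  have t5 : 3 * X ^ (3 / 4 : ℝ) + (3 * X ^ (1 / 2 : ℝ)) * (3 * ℓ) ≤ X / ℓ ^ 34 := by
    rw [le_div_iff₀ (by positivity)]
    have hℓ35 : ℓ ^ 34 ≤ ℓ ^ 35 := pow_le_pow_right₀ hl (by norm_num)
    have a1 : X ^ (3 / 4 : ℝ) * ℓ ^ 34 ≤ (1 / 12) * X := by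
      calc X ^ (3 / 4 : ℝ) * ℓ ^ 34 ≤ X ^ (3 / 4 : ℝ) * ((1 / 12) * X ^ (1 / 4 : ℝ)) :=
            mul_le_mul_of_nonneg_left (hℓ35.trans h35') (by positivity)
        _ = (1 / 12) * (X ^ (3 / 4 : ℝ) * X ^ (1 / 4 : ℝ)) := by ring
        _ = (1 / 12) * X := by rw [e1]
    have a2 : X ^ (1 / 2 : ℝ) * (ℓ * ℓ ^ 34) ≤ (1 / 12) * X := by
      have e : ℓ * ℓ ^ 34 = ℓ ^ 35 := by ring
      rw [e]
      calc X ^ (1 / 2 : ℝ) * ℓ ^ 35 ≤ X ^ (1 / 2 : ℝ) * ((1 / 12) * X ^ (1 / 4 : ℝ)) :=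
            mul_le_mul_of_nonneg_left h35' (by positivity)
        _ = (1 / 12) * (X ^ (1 / 2 : ℝ) * X ^ (1 / 4 : ℝ)) := by ring
        _ = (1 / 12) * X ^ (3 / 4 : ℝ) := by rw [e34]
        _ ≤ (1 / 12) * (X ^ (3 / 4 : ℝ) * X ^ (1 / 4 : ℝ)) := by
            apply mul_le_mul_of_nonneg_left _ (by norm_num)
            exact le_mul_of_one_le_right (by positivity) p14
        _ = (1 / 12) * X := by rw [e1]
    nlinarith
  linarith

theorem large_alg (X P l : ℝ) (hP : 0 < P) (hl : 0 < l) :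
    (13 * (X / (P * l ^ 2))) * (12 * X * (4294967296 * P)) = 670014898176 * X ^ 2 / l ^ 2 := by
  field_simp
  ring

theorem large_fin (X S l δ : ℝ) (hX : 0 < X) (hS : 0 ≤ S) (hl : 0 < l) (hδ : 0 < δ)
    (h7 : 6553600 ≤ l * δ) (h5 : S ^ 2 ≤ 670014898176 * X ^ 2 / l ^ 2) : 8 * S ≤ δ * X := by
  have h8 : (8 * S) ^ 2 ≤ (δ * X) ^ 2 := by
    have h9 : 670014898176 * X ^ 2 / l ^ 2 ≤ (δ * X) ^ 2 / 64 := by
      rw [div_le_div_iff₀ (by positivity) (by norm_num)]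
      have h10 : (6553600 : ℝ) ^ 2 ≤ (l * δ) ^ 2 := pow_le_pow_left₀ (by norm_num) h7 2
      have h11 : (670014898176 : ℝ) * 64 ≤ (l * δ) ^ 2 := le_trans (by norm_num) h10
      have h12 := mul_le_mul_of_nonneg_right h11 (sq_nonneg X)
      nlinarith
    have h12 : (8 * S) ^ 2 = 64 * S ^ 2 := by ring
    rw [h12]
    linarith
  exact (pow_le_pow_iff_left₀ (by positivity) (by positivity) two_ne_zero).1 h8

theorem large_pow (a l : ℝ) (ha : 0 ≤ a) (hal : a ≤ 2 * l) : a ^ 32 ≤ 4294967296 * l ^ 32 := by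
  have h := pow_le_pow_left₀ ha hal 32
  rw [mul_pow] at h
  refine h.trans (le_of_eq ?_)
  congr 1
  norm_num

/-- GP-2 -/
theorem large_of (hM : S_MULT) : S_LARGE := by
  classical
  refine ⟨34, fun δ hδ => ?_⟩
  have h1 : ∀ᶠ X : ℝ in atTop, max 1 (6553600 / δ) ≤ Real.log X :=
    Real.tendsto_log_atTop.eventually_ge_atTop _
  have ev : ∀ᶠ X : ℝ in atTop, (open scoped Classical in
    (((dedge X).filter (fun e => ∃ l : ℕ, l.Prime ∧ Real.log X ^ 34 < (l : ℝ) ∧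
      l ^ 2 ∣ NN e)).card : ℝ)) ≤ δ * X := by
    filter_upwards [h1, card_PX_ev, eventually_ge_atTop (16 : ℝ)] with X hl hcard hX
    have hX0 : (0 : ℝ) < X := by linarith
    have hX1 : (1 : ℝ) ≤ X := by linarith
    have hl1 : 1 ≤ Real.log X := (le_max_left _ _).trans hl
    have hl2 : 6553600 / δ ≤ Real.log X := (le_max_right _ _).trans hl
    have hℓ0 : 0 < Real.log X := by linarith
    refine (large_card hM X hX1 (Real.log X ^ 34) (one_le_pow₀ hl1)).trans ?_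
    have hSg0 : 0 ≤ ∑ k ∈ PX ⌊Real.log X ^ 34⌋₊ ⌊X⌋₊, (((k ^ 2 + 1).divisors.card : ℕ) : ℝ) :=
      sum_nonneg fun _ _ => Nat.cast_nonneg _
    have h2 := large_sq ⌊Real.log X ^ 34⌋₊ ⌊X⌋₊
    have hN : (⌊X⌋₊ : ℝ) ≤ X := Nat.floor_le hX0.le
    have hN1 : 1 ≤ ⌊X⌋₊ := Nat.le_floor (by exact_mod_cast hX1)
    have hN1' : (1 : ℝ) ≤ (⌊X⌋₊ : ℝ) := by exact_mod_cast hN1
    have hlogN : Real.log (⌊X⌋₊ : ℝ) ≤ Real.log X := Real.log_le_log (by linarith) hN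
    have hlogN0 : 0 ≤ Real.log (⌊X⌋₊ : ℝ) := Real.log_nonneg hN1'
    have h3 := large_pow (1 + Real.log (⌊X⌋₊ : ℝ)) (Real.log X) (by linarith) (by linarith)
    have h4 : 12 * (⌊X⌋₊ : ℝ) * (1 + Real.log (⌊X⌋₊ : ℝ)) ^ 32 ≤
        12 * X * (4294967296 * Real.log X ^ 32) :=
      mul_le_mul (by linarith) h3 (by positivity) (by positivity)
    have e34 : Real.log X ^ 34 = Real.log X ^ 32 * Real.log X ^ 2 := by rw [← pow_add]
    have h5 := h2.trans (mul_le_mul hcard h4 (by positivity) (by positivity))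
    have h6 : 13 * (X / Real.log X ^ 34) * (12 * X * (4294967296 * Real.log X ^ 32)) =
        670014898176 * X ^ 2 / Real.log X ^ 2 := by
      rw [e34]
      exact large_alg X _ _ (by positivity) hℓ0
    rw [h6] at h5
    have h7 : 6553600 ≤ Real.log X * δ := by rwa [div_le_iff₀ hδ] at hl2
    exact large_fin X _ _ δ hX0 hSg0 hℓ0 hδ h7 h5
  exact eventually_atTop.1 ev

end Pool.Agent.W801.GM
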